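import Pool.Agent.TH192.DT.MotZ

set_option autoImplicit false

/-! # The equivariant motivic monodromy conjecture for forms over determinantal ideals

Let `x` be the generic matrix of one of the three spaces `S` of matrices: all `m × n` matrices, the
symmetric `n × n` matrices, the skew symmetric `n × n` matrices (`MSpace`). For `t < T` let
`F_t = ∑_j y_{t,j} M_j(x)`, where the `M_j` are the `p t`-minors of `x` (the Pfaffians of size
`2 (p t)` in the skew symmetric case), `p t < min (m, n)`, `p t < n`, or `2 (p t) + 1 < n`
(`Small`), and the `y_{t,j}` are further variables, separate for each `t`. Let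
`f = ∏ t, F_t ^ a t` (`MSpace.form`).

Let `P` be the maximum of the `p t` with `a t > 0`, and let `Y` be the space obtained by blowing up
the matrices of rank `≤ 0`, the strict transform of the matrices of rank `≤ 1` (`≤ 2`), …, the
strict transform of the matrices of rank `≤ P - 1` (`≤ 2 (P - 1)`): the complete collineations,
complete quadrics, complete skew forms, up to the rank `P`. It is smooth, the strict transforms
`E_d`, `d < P`, of the exceptional divisors cross normally, the multiplicity of the Jacobian
determinant along `E_d` is `ν_d - 1`, where `ν_d` is the codimension of the locus of the matrices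
of rank `≤ d` (`≤ 2 d`), and for `p ≤ P` the ideal of the minors of size `p` is locally generated
by one of them and has the multiplicity `max (p - d, 0)` along `E_d`. So locally on `Y` the form
`F_t` is one of the `M_j` times `y_{t,j} + ∑_{i ≠ j} g_i y_{t,i}`; hence `Y` times the space of the
`y` is an embedded resolution of `f`, with the components `E_d`, `d < P`, of multiplicity
`N_d = ∑ t, a t max (p t - d, 0)`, and, for `a t > 0`, the strict transform of `F_t = 0`, with
multiplicity `a t` and `ν = 1` (`mulN`, `MSpace.nu`). It is defined over the prime field.

By the formula of Denef and Loeser the equivariant motivic zeta function of `f` over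
`X_s = {f = 0}` is `∑_I c_I ∏_{i ∈ I} 𝕃 ^ (-ν_i) T ^ (N_i) / (1 - 𝕃 ^ (-ν_i) T ^ (N_i))` (`dlZ`), where `I`
runs over the non-empty sets of components and `c_I ∈ 𝓜^μ_{X_s}` is `(𝕃 - 1) ^ (|I| - 1)` times the
class of the covering of the stratum `I` with its action of `μ`. The ring `R` below is a
commutative ring with a unit `u`, for example `R = 𝓜^μ_{X_s}` with `u = 𝕃`.

The proof for the roots: a functional equation of `f` gives a functional equation of the product of
the powers `I_t ^ a t` of the ideals of the minors, with the same `b` (`locEq_of_powProd`; for one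
form and `a = 1` this is one direction of a theorem of Mustata, 2019), and the `E_d` are Rees
divisors of this ideal; the roots `-1 / a t` come from the strict transforms (`strict_root`). -/

namespace Pool.Agent.Results.MP_b48657_ag.DeterminantalForms

open Pool.Agent.H628R4.TP Pool.Agent.TH192.DT

/-- **The equivariant motivic monodromy conjecture for `f = ∏ t, F_t ^ a t`**, `F_t` the forms with
the minors of size `p t` of a generic, symmetric or skew symmetric matrix as coefficients. There is
a finite set `P` of pairs `(a, b)`, `a < 0 < b`, such that `a / b` is a root of every `b` with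
`b(s) f ^ s = P(s) f ^ (s + 1)`, in particular of the Bernstein-Sato polynomial of `f`, and for every
commutative ring `R` with a unit `u` (`𝓜^μ_{X_s}` and `𝕃`) every series which is given by the formula
of Denef and Loeser on the resolution described above, with arbitrary `c I ∈ R`, lies in the ring
generated over `R` by `T` and the `1 / (1 - u ^ a T ^ b)`, `(a, b) ∈ P`. -/
theorem result (S : MSpace) (T : ℕ) (p a : Fin T → ℕ) (hp : ∀ t, S.Small (p t)) :
    ∃ P : Finset (ℤ × ℤ), (∀ q ∈ P, q.1 < 0 ∧ 0 < q.2 ∧
      ∀ b : Polynomial ℂ, IsBFunction (S.form p a) b → b.eval ((q.1 : ℂ) / q.2) = 0) ∧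
    ∀ (R : Type) [CommRing R] (u : Rˣ) (c : Finset {i // 0 < mulN S.rk p a i} → R),
      dlZ u (S.nu T) (mulN S.rk p a) c ∈ ratU u (P : Set (ℤ × ℤ)) :=
  ⟨pairs (S.nu T) (mulN S.rk p a),
    fun q hq => ⟨(pairs_sign _ _ (S.nu_pos T) q hq).1, (pairs_sign _ _ (S.nu_pos T) q hq).2,
    fun b hb => pairs_roots _ _ (S.nu_pos T) b (fun i l hl => S.roots_global T p a hp b hb i l hl) q hq⟩,
    fun _ _ u c => dlZ_mem u _ _ c⟩

end Pool.Agent.Results.MP_b48657_ag.DeterminantalForms
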