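import Mathlib
import Pool.Agent.TH216.MF.HDM

/-!
# The equivariant motivic monodromy conjecture for generic coefficients: simplices and B1-facets

Let `f = ∑_j c_j x ^ (v j) + h` be a polynomial in `n` variables over a field `k ⊂ ℂ`, where `h` is an
ARBITRARY polynomial over a subfield `F ⊂ k`, whose exponents are in the Newton polyhedron
`conv {v j} + ℝ_{≥ 0} ^ n`, and the coefficients `c_j ∈ k` are generic: `g(c) ≠ 0` for a certain nonzero
polynomial `g` with coefficients in `F` (`k = F` is allowed). So only the coefficients at the vertices
of the Newton polyhedron (and as many others as one wants) have to be generic. For every candidate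
pole `- |a| / N_a ≠ -1` either one of its facets contains a simplex which is not B1, or at every
`v j` the facets of the candidate pole through `v j` are simplices or `B1`-facets in a common
direction. In particular this holds if on every facet the `v j` are linearly independent (in the
coordinates with `a i ≠ 0`) and the exponents of `h` on it are in the convex hull of the `v j` (the
simplicial case). Then the motivic zeta function of Denef and Loeser, with coefficients in the
localised Grothendieck ring of varieties over `X_s = {f = 0}` with action of `μ̂`, lies in the ring
generated by `T` and finitely many `1 / (1 - 𝕃 ^ a T ^ b)` with `a < 0 < b` and `a / b` a root of the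
Bernstein-Sato polynomial of `f`.

Method. If the `c_j` are algebraically independent over `F`, the functional equation of the
Bernstein-Sato polynomial gives an identity in a polynomial ring with one variable for every `v j`.
It is extended to the further monomials (a filtration by the convex hull of the `v j`) and turned
into a multiplicative identity for the series `∑_u q ^ (-|u|) F (⟨u, m_1⟩ - t, …, ⟨u, m_k⟩ - t)`, `F` a
difference polynomial applied to the Heaviside function of the orthant, for every integer `q ≥ 2`.
On the other side, the classes of the zero sets of the face polynomials in the tori satisfy linear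
relations, one for each variable which has exponent `1` in one monomial of a face and does not occur
in the others; so the zeta function is a combination of universal series in `q ^ (-1)` and `T`. The
multiplicative identity shows that for every `q ≥ 2` these universal series have no poles on
`log |T| / log q = σ` if `-σ` is not a root, hence that the factors `1 - q ^ (-a) T ^ N` with `a / N = σ`
cancel identically, and `q` can be replaced by `𝕃`. Gröbner bases in the Weyl algebra over
`F(c_1, …, c_r)` compare the generic Bernstein-Sato polynomial with the one of a single member.
-/

set_option autoImplicit false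

namespace Pool.Agent.Results.MP_b48657_ag.SimplicialOrB1Facets

open MvPolynomial Pool.Agent.W428.MOT Pool.Agent.W425.MM Pool.Agent.TH216.HD

/-- **The equivariant motivic monodromy conjecture (Bernstein-Sato form, global form over `X_s`,
with the action of `μ̂`) for the polynomials `f = ∑_j c_j x ^ (v j) + h` with generic coefficients
`c_j`; simplices, and `B1`-facets in a direction depending on the vertex.**

`poly v c h` is the polynomial `f = ∑_j c_j x ^ (v j) + h`. `InPoly v w` says that `w` is in the Newton
polyhedron `conv {v j} + ℝ_{≥ 0} ^ n`.

`Hyp False v h` says that for every ray `a` of the normal fan of the Newton polyhedron (`IsRay v a`)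
with `N_a := ordA v a = min_j ⟨a, v j⟩ > 0` one of the following holds:
* `|a| = N_a` (the candidate pole is `-1`);
* `|a| / N_a = |a'| / N_{a'}` for some `a' ∈ ℕ ^ n` with `N_{a'} > 0` and `NonB1 v False a'`: there is a
  set `J` of `#{i | a' i ≠ 0}` elements with `⟨a', v j⟩ = N_{a'}` for `j ∈ J` such that the vectors
  `(v j i)_{a' i ≠ 0}`, `j ∈ J`, are linearly independent and such that no variable `x_i` with
  `a' i ≠ 0` occurs in exactly one of the monomials `x ^ (v j)`, `j ∈ J`, and there with exponent `1`;
* `LocS v h σ` for `σ = lev v a = |a| / N_a`: for every `v j1` there is a variable `x_i` such that each of the rays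
  `a'` with `N_{a'} > 0`, `|a'| / N_{a'} = σ` and `⟨a', v j1⟩ = N_{a'}` (the facets through `v j1`)
  satisfies one of
  - its facet is a simplex (`Simp v h a'`): the vectors `(v j i)_{a' i ≠ 0}`, for the `j` with
    `⟨a', v j⟩ = N_{a'}`, are linearly independent, and the exponents `w` of `h` with
    `⟨a', w⟩ = N_{a'}` are in the convex hull of the `v j` (automatic if all `a' i ≠ 0`);
  - it is B1 in the direction `i` (`B1Dir v h i a'`): `a' i ≠ 0`, and among the
    monomials of the face of `a'` (the `x ^ (v j)` and the monomials of `h` of minimal `a'`-weight
    `N_{a'}`) exactly one is divisible by `x_i`; this one is some `x ^ (v j0)` with `v j0 i = 1`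
    (it may also occur in `h`).

`IsBFunction f b` says that `b(s) f ^ s = P(s) f ^ (s + 1)` for a differential operator `P(s)` in the
Weyl algebra, polynomial in `s`; the Bernstein-Sato polynomial `b_f` is one of these polynomials
`b`. -/
theorem result (F : Type) [Field F] [Algebra F ℂ] {n r : ℕ} (hr : 0 < r) (v : Fin r → Fin n → ℕ)
    (hv : Function.Injective v) (hv0 : ∀ j, v j ≠ 0)
    (h : MvPolynomial (Fin n) F) (hh : ∀ w ∈ h.support, InPoly v w) (hL : Hyp False v h) :
    ∃ g : MvPolynomial (Fin r) F, g ≠ 0 ∧
      ∀ (k : Type) [Field k] [Algebra F k] [Algebra k ℂ] [IsScalarTower F k ℂ] (c : Fin r → k),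
      aeval c g ≠ 0 →
      ∃ S : Finset (ℤ × ℤ),
        (∀ p ∈ S, p.1 < 0 ∧ 0 < p.2 ∧ ∀ b : Polynomial ℂ,
          Pool.Agent.H628R4.TP.IsBFunction (poly v (fun j => algebraMap k ℂ (c j)) h) b →
            b.eval ((p.1 : ℂ) / p.2) = 0) ∧
        InRat (LuMu (poly v c h)) S (zetaE (poly v c h)) := by
  obtain ⟨g, hg, hgz⟩ := genM (F := F) hr v hv hv0 h hh hL
  refine ⟨g, hg, fun k _ _ _ _ c hc => ?_⟩
  obtain ⟨S, hS, -, hz⟩ := hgz k c hc
  exact ⟨S, hS, hz⟩

end Pool.Agent.Results.MP_b48657_ag.SimplicialOrB1Facets
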